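import Mathlib
import Pool.Agent.Y633.Lay.Choose

/-! # The closed set of gates, for schedules whose long paths meet thin cuts -/

open Finset

set_option linter.unusedSectionVars false

namespace Pool.Agent.Y633.Cut

open Pool.Agent.Y633.Dep Pool.Agent.Y633.Rob Pool.Agent.Y633.Lay

variable {n q : ℕ}

/-- The wire from gate `u` to gate `v` is fat: all times at which it is stored are in `Ft`. -/
def FatWire {s : ℕ} (E : Finset (Fin s)) (start : Fin s → ℕ) (Ft : Finset ℕ) (u v : Fin s) :
    Prop :=
  u ∉ E ∧ ∀ τ, start u ≤ τ → τ < start v → τ ∈ Ft

open Classical in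
/-- The inputs attached to a source, given the ancestors of the gates. -/
noncomputable def ancS {s : ℕ} (E : Finset (Fin s)) (start : Fin s → ℕ) (Ft : Finset ℕ)
    (v : Fin s) (anc : Fin s → Finset (Fin n)) : Src n q s → Finset (Fin n)
  | Sum.inl (Sum.inl g) => {g}
  | Sum.inl (Sum.inr _) => ∅
  | Sum.inr u => if FatWire E start Ft u v then anc u else ∅

lemma exists_ancS (C : Circuit n q) (E : Finset (Fin C.size)) (start : Fin C.size → ℕ)
    (Ft : Finset ℕ) : ∃ anc : Fin C.size → Finset (Fin n),
      ∀ v, anc v = univ.biUnion fun a => ancS E start Ft v anc (C.src v a) := by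
  classical
  apply Pool.Agent.H559R2.Sharing.exists_fixed
    (fun v anc => univ.biUnion fun a => ancS E start Ft v anc (C.src v a))
  intro i v v' h
  apply biUnion_congr rfl
  intro a _
  rcases hs : C.src i a with (j | j) | j
  · rfl
  · rfl
  · simp only [ancS]
    split_ifs
    · exact h j (C.acyclic i a j hs)
    · rfl

/-- A path of fat wires ending at `v`. -/
def FatPath (C : Circuit n q) (E : Finset (Fin C.size)) (start : Fin C.size → ℕ)
    (Ft : Finset ℕ) (l : List (Fin C.size)) : Prop :=
  l.IsChain (fun u v => (∃ a, C.src v a = Sum.inr u) ∧ FatWire E start Ft u v) ∧ ∀ v ∈ l, v ∉ E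

lemma card_ancS_le {K : ℕ} (C : Circuit n q) (hK : ∀ i, C.arity i ≤ K) (E : Finset (Fin C.size))
    (start : Fin C.size → ℕ) (Ft : Finset ℕ)
    (anc : Fin C.size → Finset (Fin n))
    (hanc : ∀ v, anc v = univ.biUnion fun a => ancS E start Ft v anc (C.src v a)) :
    ∀ (m : ℕ) (v : Fin C.size), v.val < m → v ∉ E → ∀ p : ℕ,
      (∀ l, FatPath C E start Ft (l ++ [v]) → (l ++ [v]).length ≤ p) →
      (anc v).card ≤ (K + 1) ^ p := by
  classical
  intro m
  induction m with
  | zero => intro v hv; exact absurd hv (Nat.not_lt_zero _)
  | succ m ih =>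
    intro v hv hvE p hp
    have hp1 : 1 ≤ p := by
      have := hp [] ⟨by simp, by simpa using hvE⟩
      simpa using this
    obtain ⟨p', rfl⟩ : ∃ p', p = p' + 1 := ⟨p - 1, by omega⟩
    rw [hanc v]
    refine card_biUnion_le.trans ?_
    have hpow : 1 ≤ (K + 1) ^ p' := Nat.one_le_pow _ _ (by omega)
    calc ∑ a, (ancS E start Ft v anc (C.src v a)).card
        ≤ ∑ _a : Fin (C.arity v), (K + 1) ^ p' := by
          apply sum_le_sum
          intro a _
          rcases hs : C.src v a with (j | j) | j
          · simpa [ancS] using hpow
          · simp [ancS]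
          · simp only [ancS]
            split_ifs with h
            · have hj : j.val < v.val := C.acyclic v a j hs
              apply ih j (by omega) h.1 p'
              intro l hl
              have h2 := hp (l ++ [j]) ⟨?_, ?_⟩
              · simp only [List.length_append, List.length_cons, List.length_nil] at h2 ⊢
                omega
              · rw [List.isChain_append]
                refine ⟨hl.1, by simp, ?_⟩
                intro x hx y hy
                simp at hx hy
                subst hx
                subst hy
                exact ⟨⟨a, hs⟩, h⟩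
              · intro w hw
                rw [List.mem_append] at hw
                rcases hw with hw | hw
                · exact hl.2 w hw
                · simp at hw
                  rw [hw]
                  exact hvE
            · simp
      _ = C.arity v * (K + 1) ^ p' := by simp
      _ ≤ (K + 1) * (K + 1) ^ p' := Nat.mul_le_mul_right _ ((hK v).trans (Nat.le_succ K))
      _ = (K + 1) ^ (p' + 1) := by rw [pow_succ]; ring

lemma card_ancS_le' {K : ℕ} (C : Circuit n q) (hK : ∀ i, C.arity i ≤ K) (E : Finset (Fin C.size))
    (start : Fin C.size → ℕ) (Ft : Finset ℕ)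
    (anc : Fin C.size → Finset (Fin n))
    (hanc : ∀ v, anc v = univ.biUnion fun a => ancS E start Ft v anc (C.src v a)) (p : ℕ)
    (hp : ∀ l, FatPath C E start Ft l → l.length ≤ p) (v : Fin C.size) :
    (anc v).card ≤ (K + 1) ^ (p + 1) := by
  classical
  rw [hanc v]
  refine card_biUnion_le.trans ?_
  have hpow : 1 ≤ (K + 1) ^ p := Nat.one_le_pow _ _ (by omega)
  calc ∑ a, (ancS E start Ft v anc (C.src v a)).card
      ≤ ∑ _a : Fin (C.arity v), (K + 1) ^ p := by
        apply sum_le_sum
        intro a _
        rcases hs : C.src v a with (j | j) | j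
        · simpa [ancS] using hpow
        · simp [ancS]
        · simp only [ancS]
          split_ifs with h
          · exact card_ancS_le C hK E start Ft anc hanc (j.val + 1) j (Nat.lt_succ_self _) h.1 p
              (fun l hl => hp _ hl)
          · simp
    _ = C.arity v * (K + 1) ^ p := by simp
    _ ≤ (K + 1) * (K + 1) ^ p := Nat.mul_le_mul_right _ ((hK v).trans (Nat.le_succ K))
    _ = (K + 1) ^ (p + 1) := by rw [pow_succ]; ring

/-- On a fat path all times between two gates are fat. -/
lemma fat_between (C : Circuit n q) (E : Finset (Fin C.size)) (start : Fin C.size → ℕ)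
    (Ft : Finset ℕ) (hst : ∀ i a j, C.src i a = Sum.inr j → j ∉ E → start j < start i) :
    ∀ (l : List (Fin C.size)) (w : Fin C.size), FatPath C E start Ft (w :: l) →
      (∀ v ∈ w :: l, start w ≤ start v) ∧
      ∀ v ∈ w :: l, ∀ τ, start w ≤ τ → τ < start v → τ ∈ Ft := by
  intro l
  induction l with
  | nil =>
    intro w _
    constructor
    · intro v hv
      simp at hv
      rw [hv]
    · intro v hv τ h1 h2
      simp at hv
      rw [hv] at h2
      omega
  | cons w' l ih =>
    intro w hl
    have hl1 := hl.1
    rw [List.isChain_cons_cons] at hl1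
    obtain ⟨⟨⟨a, ha⟩, hf⟩, hl2⟩ := hl1
    have hw : w ∉ E := hl.2 w (by simp)
    have hlt := hst _ a _ ha hw
    obtain ⟨ih1, ih2⟩ := ih w' ⟨hl2, fun v hv => hl.2 v (List.mem_cons_of_mem _ hv)⟩
    constructor
    · intro v hv
      rw [List.mem_cons] at hv
      rcases hv with rfl | hv
      · exact le_rfl
      · exact hlt.le.trans (ih1 v hv)
    · intro v hv τ h1 h2
      rw [List.mem_cons] at hv
      rcases hv with rfl | hv
      · omega
      · by_cases h3 : τ < start w'
        · exact hf.2 τ h1 h3
        · exact ih2 v hv τ (by omega) h2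

/-- On a fat path all times between two gates are fat. -/
lemma fat_between' (C : Circuit n q) (E : Finset (Fin C.size)) (start : Fin C.size → ℕ)
    (Ft : Finset ℕ) (hst : ∀ i a j, C.src i a = Sum.inr j → j ∉ E → start j < start i)
    (l : List (Fin C.size)) (hl : FatPath C E start Ft l) (u v : Fin C.size) (hu : u ∈ l)
    (hv : v ∈ l) (τ : ℕ) (h1 : start u ≤ τ) (h2 : τ < start v) : τ ∈ Ft := by
  cases l with
  | nil => simp at hu
  | cons w l =>
    obtain ⟨h3, h4⟩ := fat_between C E start Ft hst l w hl
    exact h4 v hv τ ((h3 u hu).trans h1) h2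

theorem closed_liveSet' (C : Circuit n q) (E : Finset (Fin C.size)) (start stop : Fin C.size → ℕ)
    (hst : ∀ i a j, C.src i a = Sum.inr j → j ∉ E → start j < start i ∧ start i ≤ stop j)
    (A : Finset ℕ) (T : ℕ → ℕ) (W Q W₂ : ℕ) (hW : 1 ≤ W)
    (hP : ∀ β ∈ A, cum start (T β) / W = β)
    (Ft : Finset ℕ) (hFt : ∀ τ, cum start τ / W ∉ A → τ ∈ Ft)
    (anc : Fin C.size → Finset (Fin n))
    (hanc : ∀ v, anc v = univ.biUnion fun a => ancS E start Ft v anc (C.src v a))
    (Pset : Finset ℕ) (B : Finset (Fin n)) (R : Finset (Fin C.size)) (hER : E ⊆ R)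
    (hcut : ∀ β ∈ A, cutAt E start stop (T β) ⊆ R)
    (hG1 : ∀ v a g, C.src v a = Sum.inl (Sum.inl g) → g ∈ B →
      ¬ (Big A (fun β => cum start (T β)) Q (pos start v) ∧ pos start v / W ∈ A ∧
        cum start (T (pos start v / W)) ≤ pos start v))
    (hG2 : ∀ v a g, C.src v a = Sum.inl (Sum.inl g) → g ∈ B →
      ¬ Big A (fun β => cum start (T β)) Q (pos start v) → pos start v / W₂ ∈ Pset) :
    Closed C B R (liveSet C start A (fun β => cum start (T β)) W Q W₂ Pset B anc) := by
  classical
  have hmem : ∀ v, v ∈ liveSet C start A (fun β => cum start (T β)) W Q W₂ Pset B anc ↔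
      ((Big A (fun β => cum start (T β)) Q (pos start v) ∧ pos start v / W ∈ A ∧
        pos start v < cum start (T (pos start v / W))) ∨
      (¬ Big A (fun β => cum start (T β)) Q (pos start v) ∧
        ∃ j, same A (fun β => cum start (T β)) (pos start j) (pos start v) ∧
          pos start j / W₂ ∈ Pset) ∨
      (Big A (fun β => cum start (T β)) Q (pos start v) ∧ pos start v / W ∉ A ∧
        (anc v ∩ B).Nonempty)) := by
    intro v
    simp [liveSet]
  have hb : ∀ x : ℕ, x / W * W ≤ x ∧ x < (x / W + 1) * W := by
    intro x
    refine ⟨Nat.div_mul_le_self _ _, ?_⟩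
    have := Nat.lt_mul_div_succ x (b := W) (by omega)
    calc x < W * (x / W + 1) := this
      _ = (x / W + 1) * W := mul_comm _ _
  refine ⟨?_, ?_⟩
  · intro v a g hs hg
    rw [hmem]
    by_cases hbig : Big A (fun β => cum start (T β)) Q (pos start v)
    · by_cases hA : pos start v / W ∈ A
      · left
        refine ⟨hbig, hA, ?_⟩
        by_contra hcon
        push Not at hcon
        exact hG1 v a g hs hg ⟨hbig, hA, hcon⟩
      · right; right
        refine ⟨hbig, hA, g, mem_inter.2 ⟨?_, hg⟩⟩
        rw [hanc v, mem_biUnion]
        exact ⟨a, mem_univ _, by rw [hs]; simp [ancS]⟩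
    · right; left
      exact ⟨hbig, v, fun β _ => Iff.rfl, hG2 v a g hs hg hbig⟩
  · intro v a u hs hu huR
    have huE : u ∉ E := fun h => huR (hER h)
    obtain ⟨hlt, hle⟩ := hst v a u hs huE
    have hcu : cum start (start u) ≤ pos start v := by
      by_contra h
      push Not at h
      rw [pos_lt_cum] at h
      omega
    have hpu : pos start u < cum start (start u) := (pos_lt_cum start u _).2 le_rfl
    have hpos : pos start u < pos start v := by omega
    have hsame : same A (fun β => cum start (T β)) (pos start u) (pos start v) := by
      intro β hβ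
      beta_reduce
      constructor
      · intro h; omega
      · intro h
        by_contra hcon
        push Not at hcon
        rw [pos_lt_cum] at hcon
        have h2 : ¬ pos start v < cum start (T β) := by omega
        rw [pos_lt_cum] at h2
        apply huR
        apply hcut β hβ
        simp only [cutAt, mem_filter, mem_univ, true_and]
        exact ⟨huE, hcon, by omega⟩
    rw [hmem] at hu ⊢
    rcases hu with ⟨hbig, hA, hPu⟩ | ⟨hsmall, j, hj, hjP⟩ | ⟨hbig, hA, hanu⟩
    · -- upper end
      left
      have hvlt : pos start v < cum start (T (pos start u / W)) := by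
        have := hsame _ hA
        beta_reduce at this
        by_contra hcon
        push Not at hcon
        have := this.2 hcon
        omega
      have hbuck : pos start v / W = pos start u / W := by
        have h1 := hP _ hA
        have h2 : pos start u / W ≤ pos start v / W := Nat.div_le_div_right hpos.le
        have h3 : pos start v / W ≤ cum start (T (pos start u / W)) / W :=
          Nat.div_le_div_right hvlt.le
        omega
      rw [hbuck]
      exact ⟨hsame.big hbig, hA, hvlt⟩
    · right; left
      exact ⟨fun h => hsmall (hsame.symm.big h), j, hj.trans hsame, hjP⟩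
    · -- middle
      have hle1 : pos start u / W ≤ pos start v / W := Nat.div_le_div_right hpos.le
      by_cases hAv : pos start v / W ∈ A
      · left
        refine ⟨hsame.big hbig, hAv, ?_⟩
        by_contra hcon
        push Not at hcon
        have h1 := (hsame _ hAv).2 hcon
        beta_reduce at h1
        have h2 := Nat.div_le_div_right (c := W) h1
        rw [hP _ hAv] at h2
        have h3 : pos start u / W = pos start v / W := by omega
        rw [h3] at hA
        exact hA hAv
      · right; right
        refine ⟨hsame.big hbig, hAv, ?_⟩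
        have hfat : FatWire E start Ft u v := by
          refine ⟨huE, ?_⟩
          intro τ hτ1 hτ2
          apply hFt
          intro hβ
          have hpu' : pos start u < cum start τ := (pos_lt_cum start u τ).2 hτ1
          have hcu' : cum start τ ≤ pos start v := by
            by_contra h
            push Not at h
            rw [pos_lt_cum] at h
            omega
          have h1 : pos start u / W ≤ cum start τ / W := Nat.div_le_div_right hpu'.le
          have h2 : cum start τ / W ≤ pos start v / W := Nat.div_le_div_right hcu'
          have h3 : pos start u / W ≠ cum start τ / W := fun h => hA (h ▸ hβ)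
          have h4 : cum start τ / W ≠ pos start v / W := fun h => hAv (h ▸ hβ)
          generalize hγ : cum start τ / W = γ at *
          have h5 := hb (cum start (T γ))
          rw [hP γ hβ] at h5
          have h6 : (γ + 1) * W ≤ pos start v / W * W := Nat.mul_le_mul_right _ (by omega)
          have h7 := (hb (pos start v)).1
          have h8 := (hsame γ hβ).2 (by beta_reduce; omega)
          beta_reduce at h8
          have h9 : (pos start u / W + 1) * W ≤ γ * W := Nat.mul_le_mul_right _ (by omega)
          have h10 := (hb (pos start u)).2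
          omega
        obtain ⟨g, hg⟩ := hanu
        rw [mem_inter] at hg
        refine ⟨g, mem_inter.2 ⟨?_, hg.2⟩⟩
        rw [hanc v, mem_biUnion]
        refine ⟨a, mem_univ _, ?_⟩
        rw [hs]
        simp only [ancS, hfat, if_true]
        exact hg.1

end Pool.Agent.Y633.Cut
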