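import Mathlib

/-!
# Circuits for multiplication with free preprocessing of one factor

Definitions only.
-/

open Finset

namespace Pool.Agent.Y633.Cut

/-- A circuit for the product of two numbers `x`, `y` of `N` bits.  There are `size` gates; gate
`i` has `arity i` incoming wires, the `a`-th one coming from `src i a`, which is a bit of `x` or a
gate.  The Boolean function `op y i` computed by gate `i` may depend on `y` in an arbitrary way.
The gates are numbered so that wires between gates go from smaller to larger numbers.  Gate
`out t` is the output for the `t`-th bit of the product. -/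
structure MulCircuit (N : ℕ) : Type where
  size : ℕ
  arity : Fin size → ℕ
  src : (i : Fin size) → Fin (arity i) → Fin N ⊕ Fin size
  op : (Fin N → Bool) → (i : Fin size) → (Fin (arity i) → Bool) → Bool
  acyclic : ∀ i a j, src i a = Sum.inr j → j < i
  out : Fin (2 * N) → Fin size

/-- `v` is the assignment of values to the gates for the factors `x` and `y`. -/
def MulCircuit.IsRun {N : ℕ} (C : MulCircuit N) (x y : Fin N → Bool)
    (v : Fin C.size → Bool) : Prop :=
  ∀ i, v i = C.op y i (fun a => Sum.elim x v (C.src i a))

/-- The circuit computes all `2 * N` bits of the product of the numbers with the binary digits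
`x` and `y`. -/
def MulCircuit.Multiplies {N : ℕ} (C : MulCircuit N) : Prop :=
  ∀ (x y : Fin N → Bool) (v : Fin C.size → Bool), C.IsRun x y v →
    ∀ t : Fin (2 * N), v (C.out t) = (Nat.ofBits x * Nat.ofBits y).testBit t

/-- The gates outside `E` whose values are stored across time `τ`: they are computed at or before
time `τ` and read by a gate computed after time `τ`. -/
def MulCircuit.stored {N : ℕ} (C : MulCircuit N) (E : Finset (Fin C.size))
    (time : Fin C.size → ℕ) (τ : ℕ) : Set (Fin C.size) :=
  {j | j ∉ E ∧ time j ≤ τ ∧ ∃ i a, C.src i a = Sum.inr j ∧ τ < time i}

end Pool.Agent.Y633.Cut
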