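import Mathlib
import Pool.Agent.Y633.Cut.Defs
import Pool.Agent.Y633.Cut.Comb

/-! # Shifts, and the theorem on multiplication -/

open Finset

set_option linter.unusedSectionVars false

namespace Pool.Agent.Y633.Cut

open Pool.Agent.Y633.Dep Pool.Agent.Y633.Rob Pool.Agent.Y633.Lay

lemma MulCircuit.exists_run {N : ℕ} (C : MulCircuit N) (x y : Fin N → Bool) :
    ∃ v, C.IsRun x y v := by
  apply Pool.Agent.H559R2.Sharing.exists_fixed
    (fun i v => C.op y i (fun a => Sum.elim x v (C.src i a)))
  intro i v v' h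
  congr 1
  funext a
  rcases hs : C.src i a with b | b
  · simp
  · simp only [Sum.elim_inr]
    exact h b (C.acyclic i a b hs)

/-- The digits of a power of two. -/
def pw (N a : ℕ) : Fin N → Bool := fun i => decide ((i : ℕ) = a)

lemma ofBits_pw {N a : ℕ} (h : a < N) : Nat.ofBits (pw N a) = 2 ^ a := by
  apply Nat.eq_of_testBit_eq
  intro i
  rw [Nat.testBit_ofBits, Nat.testBit_two_pow]
  unfold pw
  split_ifs with hi
  · simp [eq_comm]
  · simp
    omega

/-- The output gate of position `t`. -/
def MulCircuit.o {N : ℕ} (hN : 1 ≤ N) (C : MulCircuit N) (t : ℕ) : Fin C.size :=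
  if h : t < 2 * N then C.out ⟨t, h⟩ else C.out ⟨0, by omega⟩

lemma value_o {N : ℕ} (hN : 1 ≤ N) (C : MulCircuit N) (hC : C.Multiplies) (x : Fin N → Bool)
    {s : ℕ} (hs : s < N) (v : Fin C.size → Bool) (hv : C.IsRun x (pw N s) v) {g : ℕ}
    (hg : g < N) : v (C.o hN (g + s)) = x ⟨g, hg⟩ := by
  unfold MulCircuit.o
  rw [dif_pos (by omega), hC x _ v hv, ofBits_pw hs, Nat.testBit_mul_two_pow]
  simp only [Nat.le_add_left, decide_true, Bool.true_and, Nat.add_sub_cancel]
  rw [Nat.testBit_ofBits, dif_pos hg]

lemma o_injective {N : ℕ} (hN : 1 ≤ N) (C : MulCircuit N) (hC : C.Multiplies) {g s s' : ℕ}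
    (hg : g < N) (hs : s < N) (hs' : s' < N) (h : C.o hN (g + s) = C.o hN (g + s')) : s = s' := by
  by_contra hne
  obtain ⟨v, hv⟩ := C.exists_run (pw N g) (pw N s)
  have h1 := hC _ _ v hv
  rw [ofBits_pw hg, ofBits_pw hs, ← pow_add] at h1
  unfold MulCircuit.o at h
  rw [dif_pos (by omega), dif_pos (by omega)] at h
  have h2 := h1 ⟨g + s, by omega⟩
  have h3 := h1 ⟨g + s', by omega⟩
  rw [h, h3] at h2
  simp only [Nat.testBit_two_pow] at h2
  simp at h2
  exact hne h2

/-- A cut set cannot carry the information on a larger set of positions, for all shifts. -/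
theorem core {N : ℕ} (hN : 1 ≤ N) (C : MulCircuit N) (hC : C.Multiplies) (G : Finset ℕ)
    (hG : G ⊆ range N) (R L : Finset (Fin C.size))
    (hinp : ∀ i a (g : Fin N), C.src i a = Sum.inl g → (g : ℕ) ∈ G → i ∈ L)
    (hgate : ∀ i a j, C.src i a = Sum.inr j → j ∈ L → j ∉ R → i ∈ L) :
    G.card * N ≤ N * R.card + G.card * L.card := by
  classical
  let Gs : ℕ → Finset ℕ := fun s => G.filter fun g => ¬ (C.o hN (g + s) ∈ L ∧ C.o hN (g + s) ∉ R)
  have hGs : ∀ s < N, (Gs s).card ≤ R.card := by
    intro s hs
    let X : ({g // g ∈ Gs s} → Bool) → Fin N → Bool := fun b i =>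
      if h : (i : ℕ) ∈ Gs s then b ⟨i, h⟩ else false
    choose V hV using fun b : {g // g ∈ Gs s} → Bool => C.exists_run (X b) (pw N s)
    have hinj : Function.Injective
        (fun (b : {g // g ∈ Gs s} → Bool) (j : {j // j ∈ R}) => V b j.1) := by
      intro b b' hbb
      have hR : ∀ j ∈ R, V b j = V b' j := fun j hj => congrFun hbb ⟨j, hj⟩
      have hall : ∀ (m : ℕ) (i : Fin C.size), i.val < m → i ∉ L → V b i = V b' i := by
        intro m
        induction m with
        | zero => intro i hi; exact absurd hi (Nat.not_lt_zero _)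
        | succ m ih =>
          intro i hi hiL
          rw [hV b i, hV b' i]
          congr 1
          funext a
          rcases hsa : C.src i a with g | j
          · simp only [Sum.elim_inl]
            have h1 : (g : ℕ) ∉ G := fun h => hiL (hinp i a g hsa h)
            have h2 : (g : ℕ) ∉ Gs s := fun h => h1 (mem_filter.1 h).1
            simp only [X, h2, dite_false]
          · simp only [Sum.elim_inr]
            by_cases hjR : j ∈ R
            · exact hR j hjR
            · have hlt : j.val < i.val := C.acyclic i a j hsa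
              exact ih j (by omega) (fun h => hiL (hgate i a j hsa h hjR))
      funext g
      have hg := g.2
      have hgs := mem_filter.1 hg
      have hgN : g.1 < N := mem_range.1 (hG hgs.1)
      have h1 := value_o hN C hC (X b) hs (V b) (hV b) hgN
      have h2 := value_o hN C hC (X b') hs (V b') (hV b') hgN
      have h3 : V b (C.o hN (g.1 + s)) = V b' (C.o hN (g.1 + s)) := by
        by_cases hL : C.o hN (g.1 + s) ∈ L
        · have : C.o hN (g.1 + s) ∈ R := by
            by_contra hR'
            exact hgs.2 ⟨hL, hR'⟩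
          exact hR _ this
        · exact hall _ _ (Nat.lt_succ_self _) hL
      rw [h1, h2] at h3
      simpa only [X, hg, dite_true, Subtype.coe_eta] using h3
    have := Fintype.card_le_of_injective _ hinj
    rw [Fintype.card_fun, Fintype.card_fun, Fintype.card_bool, Fintype.card_coe,
      Fintype.card_coe] at this
    exact (Nat.pow_le_pow_iff_right (by norm_num)).1 this
  have hsum : ∑ s ∈ range N, (G.filter fun g => C.o hN (g + s) ∈ L ∧ C.o hN (g + s) ∉ R).card ≤
      G.card * L.card := by
    simp only [card_filter]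
    rw [sum_comm]
    calc ∑ g ∈ G, ∑ s ∈ range N, (if C.o hN (g + s) ∈ L ∧ C.o hN (g + s) ∉ R then 1 else 0)
        ≤ ∑ _g ∈ G, L.card := by
          apply sum_le_sum
          intro g hg
          rw [← card_filter]
          apply card_le_card_of_injOn (fun s => C.o hN (g + s))
          · intro s hs
            simp only [coe_filter, mem_range, Set.mem_setOf_eq] at hs
            exact hs.2.1
          · intro s hs s' hs' h
            simp only [coe_filter, mem_range, Set.mem_setOf_eq] at hs hs'
            exact o_injective hN C hC (mem_range.1 (hG hg)) hs.1 hs'.1 h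
      _ = G.card * L.card := by rw [sum_const, smul_eq_mul]
  have hsum2 : ∑ s ∈ range N, (Gs s).card ≤ N * R.card := by
    calc ∑ s ∈ range N, (Gs s).card ≤ ∑ _s ∈ range N, R.card := by
          apply sum_le_sum
          intro s hs
          exact hGs s (mem_range.1 hs)
      _ = N * R.card := by rw [sum_const, smul_eq_mul, card_range]
  have hsplit : ∀ s, (G.filter fun g => C.o hN (g + s) ∈ L ∧ C.o hN (g + s) ∉ R).card +
      (Gs s).card = G.card := fun s => card_filter_add_card_filter_not _
  calc G.card * N = ∑ _s ∈ range N, G.card := by rw [sum_const, smul_eq_mul, card_range, mul_comm]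
    _ = ∑ s ∈ range N, ((G.filter fun g => C.o hN (g + s) ∈ L ∧ C.o hN (g + s) ∉ R).card +
        (Gs s).card) := by
        apply sum_congr rfl
        intro s _
        exact (hsplit s).symm
    _ = _ := by rw [sum_add_distrib]
    _ ≤ N * R.card + G.card * L.card := by omega

/-- The circuit as a circuit with `2 * N` inputs, the last `N` of them being the bits of `x`. -/
def MulCircuit.toDep {N : ℕ} (C : MulCircuit N) (o : Fin C.size) : Dep.Circuit (2 * N) 0 where
  size := C.size
  arity := C.arity
  src i a := Sum.elim (fun g : Fin N => Sum.inl (Sum.inl ⟨N + (g : ℕ), by omega⟩))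
    (fun j => Sum.inr j) (C.src i a)
  op _ _ := false
  acyclic := by
    intro i a j h
    rcases hs : C.src i a with g | j'
    · rw [hs] at h
      simp at h
    · rw [hs] at h
      simp only [Sum.elim_inr, Sum.inr.injEq] at h
      rw [← h]
      exact C.acyclic i a j' hs
  out := o

lemma toDep_inr {N : ℕ} (C : MulCircuit N) (o : Fin C.size) (i : Fin C.size)
    (a : Fin (C.arity i)) (j : Fin C.size) (h : (C.toDep o).src i a = Sum.inr j) :
    C.src i a = Sum.inr j := by
  rcases hs : C.src i a with g | j'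
  · simp only [MulCircuit.toDep, hs, Sum.elim_inl] at h
    exact absurd h (by simp)
  · simp only [MulCircuit.toDep, hs, Sum.elim_inr, Sum.inr.injEq] at h
    rw [h]

lemma toDep_inr' {N : ℕ} (C : MulCircuit N) (o : Fin C.size) (i : Fin C.size)
    (a : Fin (C.arity i)) (j : Fin C.size) (h : C.src i a = Sum.inr j) :
    (C.toDep o).src i a = Sum.inr j := by
  simp only [MulCircuit.toDep, h, Sum.elim_inr]

lemma toDep_inl' {N : ℕ} (C : MulCircuit N) (o : Fin C.size) (i : Fin C.size)
    (a : Fin (C.arity i)) (g : Fin N) (h : C.src i a = Sum.inl g) :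
    (C.toDep o).src i a = Sum.inl (Sum.inl ⟨N + (g : ℕ), by omega⟩) := by
  simp only [MulCircuit.toDep, h, Sum.elim_inl]

open Classical in
/-- The time of the last use of a gate. -/
noncomputable def lastUse {N : ℕ} (C : MulCircuit N) (time : Fin C.size → ℕ) (j : Fin C.size) :
    ℕ :=
  (univ.filter fun i => ∃ a, C.src i a = Sum.inr j).sup time

lemma le_lastUse {N : ℕ} (C : MulCircuit N) (time : Fin C.size → ℕ) {i j : Fin C.size}
    {a : Fin (C.arity i)} (h : C.src i a = Sum.inr j) : time i ≤ lastUse C time j := by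
  classical
  unfold lastUse
  exact le_sup (f := time) (mem_filter.2 ⟨mem_univ i, a, h⟩)

lemma lt_lastUse {N : ℕ} (C : MulCircuit N) (time : Fin C.size → ℕ) {j : Fin C.size} {τ : ℕ}
    (h : τ < lastUse C time j) : ∃ i a, C.src i a = Sum.inr j ∧ τ < time i := by
  classical
  unfold lastUse at h
  rw [Finset.lt_sup_iff] at h
  obtain ⟨i, hi, h2⟩ := h
  obtain ⟨a, ha⟩ := (mem_filter.1 hi).2
  exact ⟨i, a, ha, h2⟩

/-- The main theorem, for paths. -/
theorem path_bound (c K : ℕ) (d : ℕ → ℕ) : ∃ m N₀ : ℕ, 1 ≤ m ∧ ∀ N, N₀ ≤ N →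
    ∀ C : MulCircuit N, (∀ i, C.arity i ≤ K) → C.size ≤ c * N → C.Multiplies →
    ∀ (E : Finset (Fin C.size)) (time : Fin C.size → ℕ), m * E.card ≤ N →
      (∀ i a j, C.src i a = Sum.inr j → j ∉ E → time j < time i) →
      ∃ j, 1 ≤ j ∧ j ≤ m ∧ ∃ l : List (Fin C.size),
        l.IsChain (fun u v => ∃ a, C.src v a = Sum.inr u) ∧ (∀ v ∈ l, v ∉ E) ∧ d j < l.length ∧
        ∀ u ∈ l, ∀ v ∈ l, ∀ τ, time u ≤ τ → τ < time v → N < j * (C.stored E time τ).ncard := by
  classical
  obtain ⟨m, N₀, hm, h⟩ := comb (c + 1) (K + 1) d (by omega) (by omega)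
  refine ⟨m, N₀ + 1, hm, ?_⟩
  intro N hN C hK hsize hC E time hE htime
  by_contra hcon
  push Not at hcon
  have hN1 : 1 ≤ N := by omega
  have key : ∀ (G : Finset ℕ) (R L : Finset (Fin C.size)), G ⊆ range (2 * N / 2) →
      Closed (C.toDep (C.o hN1 0)) (dataSet (2 * N) G) R L → 8 * (K + 1 + 1) * L.card ≤ 2 * N →
      12 * (0 + R.card + 4) + 6 * Nat.log 2 (Pool.Agent.H559R2.Sharing.msgLen (2 * N)) ≤
        G.card → False := by
    intro G R L hG hcl hL h2
    have hGN : G ⊆ range N := by
      have : 2 * N / 2 = N := by omega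
      rwa [this] at hG
    have hcore := core hN1 C hC G hGN R L
      (by
        intro i a g hs hg
        apply hcl.inp i a ⟨N + (g : ℕ), by omega⟩ (toDep_inl' C _ i a g hs)
        simp only [dataSet, mem_filter, mem_univ, true_and]
        have : 2 * N / 2 = N := by omega
        rw [this]
        refine ⟨by omega, ?_⟩
        rw [Nat.add_sub_cancel_left]
        exact hg)
      (by
        intro i a j hs hj hjR
        exact hcl.gate i a j (toDep_inr' C _ i a j hs) hj hjR)
    have h1 : 8 * L.card ≤ N := by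
      have h2 : 16 * L.card ≤ 8 * (K + 1 + 1) * L.card := Nat.mul_le_mul_right _ (by omega)
      omega
    have h3 : 8 * (G.card * L.card) ≤ G.card * N := by
      calc 8 * (G.card * L.card) = G.card * (8 * L.card) := by ring
        _ ≤ G.card * N := Nat.mul_le_mul_left _ h1
    have h4 : 12 * (N * R.card) ≤ G.card * N := by
      calc 12 * (N * R.card) = N * (12 * R.card) := by ring
        _ ≤ N * G.card := Nat.mul_le_mul_left _ (by omega)
        _ = G.card * N := mul_comm _ _
    have h5 : 1 ≤ G.card * N := by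
      have : 1 ≤ G.card := by omega
      exact Nat.mul_pos this hN1
    omega
  have hE2 : m * E.card ≤ 2 * N := by omega
  obtain ⟨G, R, L, hG, -, -, hcl, hL, -, hGR⟩ := h (2 * N) 0 (by omega) (by omega)
    (C.toDep (C.o hN1 0)) (fun i => (hK i).trans (Nat.le_succ K))
    (by
      change C.size ≤ (c + 1) * (2 * N)
      have h1 : (c + 1) * (2 * N) = c * N + (c * N + 2 * N) := by ring
      omega)
    E time (lastUse C time) hE2
    (by
      intro i a j hs hj
      have hs' := toDep_inr C _ i a j hs
      exact ⟨htime i a j hs' hj, le_lastUse C time hs'⟩)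
    (by
      intro j hj1 hjm l hl hlE hlen
      obtain ⟨u, hu, v, hv, τ, h1, h2, h3⟩ := hcon j hj1 hjm l
        (hl.imp (fun u v hw => by
          obtain ⟨a, ha⟩ := hw
          exact ⟨a, toDep_inr C _ v a u ha⟩)) hlE hlen
      refine ⟨u, hu, v, hv, τ, h1, h2, ?_⟩
      have h4 : (cutAt E time (lastUse C time) τ).card ≤ (C.stored E time τ).ncard := by
        rw [← Set.ncard_coe_finset]
        apply Set.ncard_le_ncard _ (Set.toFinite _)
        intro w hw
        simp only [cutAt, coe_filter, mem_univ, true_and, Set.mem_setOf_eq] at hw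
        exact ⟨hw.1, hw.2.1, lt_lastUse C time hw.2.2⟩
      have h5 := Nat.mul_le_mul_left j h4
      change j * (cutAt E time (lastUse C time) τ).card ≤ 2 * N
      omega)
  exact key G R L hG hcl hL hGR

/-- The main theorem, for the total storage. -/
theorem storage_bound {N : ℕ} (C : MulCircuit N) (E : Finset (Fin C.size))
    (time stop : Fin C.size → ℕ)
    (htime : ∀ i a j, C.src i a = Sum.inr j → j ∉ E → time j < time i)
    (hstop : ∀ i a j, C.src i a = Sum.inr j → j ∉ E → time i ≤ stop j)
    (c j : ℕ) (l : List (Fin C.size)) (hl : l.IsChain (fun u v => ∃ a, C.src v a = Sum.inr u))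
    (hlE : ∀ v ∈ l, v ∉ E) (hlen : c * j + 1 < l.length)
    (hfat : ∀ u ∈ l, ∀ v ∈ l, ∀ τ, time u ≤ τ → τ < time v →
      N < j * (C.stored E time τ).ncard) : c * N < ∑ i ∈ Eᶜ, (stop i - time i) := by
  classical
  -- the times of the gates on the path are strictly increasing
  have hmono : (l.map time).Pairwise (· < ·) := by
    have h1 : (l.map time).IsChain (· < ·) := by
      rw [List.isChain_map]
      have : ∀ l : List (Fin C.size), l.IsChain (fun u v => ∃ a, C.src v a = Sum.inr u) →
          (∀ v ∈ l, v ∉ E) → l.IsChain (fun u v => time u < time v) := by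
        intro l
        induction l with
        | nil => intro _ _; simp
        | cons w l ih =>
          intro h hE
          cases l with
          | nil => simp
          | cons w' l =>
            rw [List.isChain_cons_cons] at h ⊢
            obtain ⟨⟨a, ha⟩, h2⟩ := h
            exact ⟨htime w' a w ha (hE w (by simp)),
              ih h2 (fun v hv => hE v (List.mem_cons_of_mem _ hv))⟩
      exact this l hl hlE
    exact List.isChain_iff_pairwise.1 h1
  have hne : l ≠ [] := by
    intro h
    rw [h] at hlen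
    simp at hlen
  obtain ⟨l', w, rfl⟩ : ∃ l' w, l = l' ++ [w] := ⟨l.dropLast, l.getLast hne,
    (List.dropLast_append_getLast hne).symm⟩
  rw [List.map_append, List.pairwise_append] at hmono
  obtain ⟨hm1, -, hm2⟩ := hmono
  have hnodup : (l'.map time).Nodup := hm1.imp (fun h => ne_of_lt h)
  obtain ⟨T, hT⟩ : ∃ T : Finset ℕ, T = (l'.map time).toFinset := ⟨_, rfl⟩
  have hTcard : c * j + 1 ≤ T.card := by
    rw [hT, List.toFinset_card_of_nodup hnodup, List.length_map]
    simp only [List.length_append, List.length_cons, List.length_nil] at hlen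
    omega
  have hsum := sum_cutAt_le E time stop T
  refine lt_of_lt_of_le ?_ hsum
  have hone : ∀ τ ∈ T, N + 1 ≤ j * (cutAt E time stop τ).card := by
    intro τ hτ
    rw [hT, List.mem_toFinset, List.mem_map] at hτ
    obtain ⟨u, hu, rfl⟩ := hτ
    have h1 : time u < time w := hm2 (time u) (List.mem_map.2 ⟨u, hu, rfl⟩) (time w) (by simp)
    have h2 := hfat u (List.mem_append_left _ hu) w (by simp) (time u) le_rfl h1
    have h3 : (C.stored E time (time u)).ncard ≤ (cutAt E time stop (time u)).card := by
      rw [← Set.ncard_coe_finset]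
      apply Set.ncard_le_ncard _ (Set.toFinite _)
      rintro v ⟨hv1, hv2, i, a, hs, hv3⟩
      simp only [cutAt, coe_filter, mem_univ, true_and, Set.mem_setOf_eq]
      exact ⟨hv1, hv2, hv3.trans_le (hstop i a v hs hv1)⟩
    have h4 := Nat.mul_le_mul_left j h3
    omega
  have hj : 1 ≤ j := by
    rcases Nat.eq_zero_or_pos j with h0 | h0
    · exfalso
      have hT1 : T.Nonempty := card_pos.1 (by omega)
      obtain ⟨τ, hτ⟩ := hT1
      have := hone τ hτ
      rw [h0] at this
      omega
    · exact h0
  have h1 : (c * j + 1) * (N + 1) ≤ j * ∑ τ ∈ T, (cutAt E time stop τ).card := by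
    rw [mul_sum]
    calc (c * j + 1) * (N + 1) ≤ T.card * (N + 1) := Nat.mul_le_mul_right _ hTcard
      _ = ∑ _τ ∈ T, (N + 1) := by rw [sum_const, smul_eq_mul]
      _ ≤ _ := sum_le_sum hone
  have h2 : j * (c * N) < (c * j + 1) * (N + 1) := by nlinarith
  exact Nat.lt_of_mul_lt_mul_left (h2.trans_le h1)

/-- The main theorem. -/
theorem main_bound (c K : ℕ) (d : ℕ → ℕ) : ∃ m N₀ : ℕ, 1 ≤ m ∧ ∀ N, N₀ ≤ N →
    ∀ C : MulCircuit N, (∀ i, C.arity i ≤ K) → C.size ≤ c * N → C.Multiplies →
    ∀ (E : Finset (Fin C.size)) (time : Fin C.size → ℕ), m * E.card ≤ N →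
      (∀ i a j, C.src i a = Sum.inr j → j ∉ E → time j < time i) →
      (∃ j, 1 ≤ j ∧ j ≤ m ∧ ∃ l : List (Fin C.size),
        l.IsChain (fun u v => ∃ a, C.src v a = Sum.inr u) ∧ (∀ v ∈ l, v ∉ E) ∧ d j < l.length ∧
        ∀ u ∈ l, ∀ v ∈ l, ∀ τ, time u ≤ τ → τ < time v → N < j * (C.stored E time τ).ncard) ∧
      ∀ stop : Fin C.size → ℕ,
        (∀ i a j, C.src i a = Sum.inr j → j ∉ E → time i ≤ stop j) →
        c * N < ∑ i ∈ Eᶜ, (stop i - time i) := by
  obtain ⟨m, N₀, hm, h⟩ := path_bound c K (fun j => d j + c * j + 1)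
  refine ⟨m, N₀, hm, ?_⟩
  intro N hN C hK hsize hC E time hE htime
  obtain ⟨j, hj1, hjm, l, hl, hlE, hlen, hfat⟩ := h N hN C hK hsize hC E time hE htime
  refine ⟨⟨j, hj1, hjm, l, hl, hlE, by omega, hfat⟩, ?_⟩
  intro stop hstop
  exact storage_bound C E time stop htime hstop c j l hl hlE (by omega) hfat

end Pool.Agent.Y633.Cut
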